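import Mathlib

set_option autoImplicit false

/-!
Special alpha-limit sets of interval maps (problem `MP_919dc2_an`).
-/

namespace Pool.Agent.X177.SA

open Filter Topology

/-- `z` is a backward orbit branch of `x`. -/
def IsBranch (f : ℝ → ℝ) (x : ℝ) (z : ℕ → ℝ) : Prop :=
  z 0 = x ∧ ∀ k, z k ∈ Set.Icc (0 : ℝ) 1 ∧ f (z (k + 1)) = z k

/-- The special alpha-limit set of `x`. -/
def sAlpha (f : ℝ → ℝ) (x : ℝ) : Set ℝ :=
  {y | ∃ z, IsBranch f x z ∧ ∃ φ : ℕ → ℕ, StrictMono φ ∧ Tendsto (z ∘ φ) atTop (𝓝 y)}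

/-- The set `S` contains a periodic orbit of (least) period `n` of `f : [0, 1] → [0, 1]`. -/
def HasOrbit (f : ℝ → ℝ) (S : Set ℝ) (n : ℕ) : Prop :=
  ∃ p ∈ Set.Icc (0 : ℝ) 1, Function.minimalPeriod f p = n ∧ 0 < n ∧ ∀ i, f^[i] p ∈ S

section

variable {f : ℝ → ℝ}

theorem iter_mem (hI : ∀ x, f x ∈ Set.Icc (0 : ℝ) 1) {x : ℝ} (hx : x ∈ Set.Icc (0 : ℝ) 1) (n : ℕ) :
    f^[n] x ∈ Set.Icc (0 : ℝ) 1 := by
  cases n with
  | zero => exact hx
  | succ n =>
    rw [Function.iterate_succ_apply']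
    exact hI _

/-- Building a branch from a sequence. -/
theorem exists_branch (hI : ∀ x, f x ∈ Set.Icc (0 : ℝ) 1) (y : ℕ → ℝ) (k : ℕ → ℕ)
    (hk : ∀ m, 1 ≤ k m) (hy : ∀ m, y m ∈ Set.Icc (0 : ℝ) 1) (hf : ∀ m, f^[k m] (y (m + 1)) = y m) :
    ∃ z, IsBranch f (y 0) z ∧ ∀ m, z (∑ i ∈ Finset.range m, k i) = y m := by
  set K : ℕ → ℕ := fun m => ∑ i ∈ Finset.range m, k i with hK
  have hK1 : ∀ m, K (m + 1) = K m + k m := fun m => Finset.sum_range_succ _ _
  have hKm : ∀ m, m ≤ K m := by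
    intro m
    induction m with
    | zero => simp
    | succ m ih =>
      rw [hK1]
      have := hk m
      omega
  have hpull : ∀ m j, f^[K (m + j) - K m] (y (m + j)) = y m := by
    intro m j
    induction j with
    | zero => simp
    | succ j ih =>
      have h1 : K m ≤ K (m + j) := Finset.sum_le_sum_of_subset (by
        intro a ha
        rw [Finset.mem_range] at ha ⊢
        omega)
      have h2 : K (m + (j + 1)) - K m = (K (m + j) - K m) + k (m + j) := by
        rw [← add_assoc, hK1]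
        omega
      rw [h2, Function.iterate_add_apply, ← add_assoc, hf, ih]
  refine ⟨fun i => f^[K i - i] (y i), ⟨?_, fun i => ⟨iter_mem hI (hy _) _, ?_⟩⟩, fun m => ?_⟩
  · simp [hK]
  · show f (f^[K (i + 1) - (i + 1)] (y (i + 1))) = f^[K i - i] (y i)
    have h1 := hKm i
    have h2 := hKm (i + 1)
    have h3 := hK1 i
    rw [← Function.iterate_succ_apply' f]
    have h4 : (K (i + 1) - (i + 1)).succ = (K i - i) + k i := by
      have := hk i
      omega
    rw [h4, Function.iterate_add_apply, hf]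
  · show f^[K (K m) - K m] (y (K m)) = y m
    have h1 := hKm m
    obtain ⟨j, hj⟩ := Nat.exists_eq_add_of_le h1
    have h2 := hpull m j
    rw [← hj] at h2
    exact h2

theorem sAlpha_subset {x : ℝ} : sAlpha f x ⊆ Set.Icc 0 1 := by
  rintro y ⟨z, hz, φ, _, hφ⟩
  exact isClosed_Icc.mem_of_tendsto hφ (Eventually.of_forall fun n => (hz.2 _).1)

theorem sAlpha_map (hf : Continuous f) {x y : ℝ} (hy : y ∈ sAlpha f x) : f y ∈ sAlpha f x := by
  obtain ⟨z, hz, φ, hφm, hφ⟩ := hy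
  have h1 : ∀ j, 1 ≤ φ (j + 1) := fun j => by
    have := hφm (Nat.lt_succ_self j)
    simp only [Nat.succ_eq_add_one] at this
    omega
  refine ⟨z, hz, fun j => φ (j + 1) - 1, ?_, ?_⟩
  · intro a b hab
    have := hφm (show a + 1 < b + 1 by omega)
    have := h1 a
    have := h1 b
    show φ (a + 1) - 1 < φ (b + 1) - 1
    omega
  · have h2 : z ∘ (fun j => φ (j + 1) - 1) = fun j => f (z (φ (j + 1))) := by
      funext j
      have h3 := (hz.2 (φ (j + 1) - 1)).2
      rw [Nat.sub_add_cancel (h1 j)] at h3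
      exact h3.symm
    rw [h2]
    exact (hf.tendsto y).comp (hφ.comp (tendsto_add_atTop_nat 1))

/-- The proper backward tree. -/
def tree (f : ℝ → ℝ) (x : ℝ) : Set ℝ := {w | w ∈ Set.Icc (0 : ℝ) 1 ∧ ∃ k, 1 ≤ k ∧ f^[k] w = x}

theorem branch_iter {x : ℝ} {z : ℕ → ℝ} (hz : IsBranch f x z) (k : ℕ) : f^[k] (z k) = x := by
  induction k with
  | zero => exact hz.1
  | succ k ih => rw [Function.iterate_succ_apply, (hz.2 k).2, ih]

theorem closure_sAlpha_subset {x : ℝ} : closure (sAlpha f x) ⊆ closure (tree f x) := by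
  refine closure_minimal ?_ isClosed_closure
  rintro y ⟨z, hz, φ, hφm, hφ⟩
  refine mem_closure_of_tendsto (hφ.comp (tendsto_add_atTop_nat 1))
    (Eventually.of_forall fun j => ?_)
  have h1 : 1 ≤ φ (j + 1) := by
    have := hφm (Nat.lt_succ_self j)
    simp only [Nat.succ_eq_add_one] at this
    omega
  exact ⟨(hz.2 _).1, φ (j + 1), h1, branch_iter hz _⟩

/-- A recurrent sequence of preimages in a compact set. -/
theorem exists_mem_of_rec (hI : ∀ x, f x ∈ Set.Icc (0 : ℝ) 1) {x : ℝ} {N : ℕ} (hN : 1 ≤ N)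
    {K : Set ℝ} (hK : IsCompact K) {y0 : ℝ} (hy0 : y0 ∈ tree f x) {V : Set ℝ} (hyV : y0 ∈ V)
    (hKV : K ⊆ V) (hKI : K ⊆ Set.Icc 0 1) (hpre : ∀ y ∈ V, ∃ z ∈ K, f^[N] z = y) :
    ∃ q ∈ K, q ∈ sAlpha f x := by
  classical
  have hstep : ∀ y : V, ∃ z : V, z.1 ∈ K ∧ f^[N] z.1 = y.1 := by
    rintro ⟨y, hy⟩
    obtain ⟨z, hz, h⟩ := hpre y hy
    exact ⟨⟨z, hKV hz⟩, hz, h⟩
  choose g hgK hgN using hstep
  obtain ⟨hy0I, k, hk, hkx⟩ := hy0
  let s : ℕ → V := fun n => Nat.rec ⟨y0, hyV⟩ (fun _ v => g v) n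
  have hs : ∀ n, s (n + 1) = g (s n) := fun n => rfl
  let y : ℕ → ℝ := fun n => Nat.casesOn n x (fun n => (s n).1)
  let kk : ℕ → ℕ := fun n => Nat.casesOn n k (fun _ => N)
  have hsK : ∀ n, (s (n + 1)).1 ∈ K := fun n => hgK _
  have hx : x ∈ Set.Icc (0 : ℝ) 1 := by
    rw [← hkx]
    exact iter_mem hI hy0I k
  obtain ⟨z, hz, hzy⟩ := exists_branch hI y kk (by
      intro m
      cases m with
      | zero => exact hk
      | succ m => exact hN) (by
      intro m
      match m with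
      | 0 => exact hx
      | 1 => exact hy0I
      | m + 2 => exact hKI (hsK m)) (by
      intro m
      cases m with
      | zero => exact hkx
      | succ m => exact hgN _)
  obtain ⟨q, hq, φ, hφm, hφ⟩ := hK.tendsto_subseq (x := fun n => (s (n + 1)).1) hsK
  refine ⟨q, hq, z, hz, fun j => ∑ i ∈ Finset.range (φ j + 2), kk i, ?_, ?_⟩
  · intro a b hab
    have h1 := hφm hab
    refine Finset.sum_lt_sum_of_subset (i := φ a + 2) ?_ ?_ ?_ ?_ ?_
    · intro i hi
      rw [Finset.mem_range] at hi ⊢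
      omega
    · rw [Finset.mem_range]
      omega
    · rw [Finset.mem_range]
      omega
    · show 0 < N
      omega
    · intro j _ _
      exact Nat.zero_le _
  · refine hφ.congr fun j => ?_
    show (s (φ j + 1)).1 = z (∑ i ∈ Finset.range (φ j + 2), kk i)
    rw [hzy]

end

end Pool.Agent.X177.SA
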