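import Mathlib

set_option autoImplicit false

namespace Pool.Agent.X177.SA

open Filter Topology

/-- Covering lemma. -/
theorem cover {F : ℝ → ℝ} (hF : Continuous F) {u v c d : ℝ} (hc : F u ≤ c) (hcd : c ≤ d)
    (hd : d ≤ F v) : ∃ u' ∈ Set.uIcc u v, ∃ v' ∈ Set.uIcc u v, F u' = c ∧ F v' = d ∧
      ∀ y ∈ Set.uIcc u' v', F y ∈ Set.Icc c d := by
  have hivt : ∀ s t r : ℝ, r ∈ Set.uIcc (F s) (F t) → ∃ y ∈ Set.uIcc s t, F y = r := by
    intro s t r hr
    obtain ⟨y, hy, h⟩ := intermediate_value_uIcc hF.continuousOn hr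
    exact ⟨y, hy, h⟩
  set A : Set ℝ := Set.uIcc u v ∩ {y | F y = c} with hA
  set B : Set ℝ := Set.uIcc u v ∩ {y | F y = d} with hB
  have hAc : IsCompact A := isCompact_uIcc.inter_right (isClosed_eq hF continuous_const)
  have hBc : IsCompact B := isCompact_uIcc.inter_right (isClosed_eq hF continuous_const)
  have hAne : A.Nonempty := by
    obtain ⟨y, hy, h⟩ := hivt u v c (Set.mem_uIcc.2 (Or.inl ⟨hc, hcd.trans hd⟩))
    exact ⟨y, hy, h⟩
  have hBne : B.Nonempty := by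
    obtain ⟨y, hy, h⟩ := hivt u v d (Set.mem_uIcc.2 (Or.inl ⟨hc.trans hcd, hd⟩))
    exact ⟨y, hy, h⟩
  obtain ⟨⟨a, b⟩, ⟨⟨ha1, ha2⟩, ⟨hb1, hb2⟩⟩, hmin⟩ := (hAc.prod hBc).exists_isMinOn
    (hAne.prod hBne) (f := fun q : ℝ × ℝ => |q.1 - q.2|) (by fun_prop)
  have ha2' : F a = c := ha2
  have hb2' : F b = d := hb2
  refine ⟨a, ha1, b, hb1, ha2', hb2', fun y hy => ?_⟩
  have hyuv : y ∈ Set.uIcc u v := Set.uIcc_subset_uIcc ha1 hb1 hy
  by_contra hcon
  rw [Set.mem_Icc, not_and_or, not_le, not_le] at hcon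
  rcases hcon with h1 | h1
  · obtain ⟨y', hy', h2⟩ := hivt y b c (Set.mem_uIcc.2 (Or.inl ⟨h1.le, by rw [hb2']; exact hcd⟩))
    have h3 : y' ∈ Set.uIcc u v := Set.uIcc_subset_uIcc hyuv hb1 hy'
    have h4 : |a - b| ≤ |y' - b| := isMinOn_iff.1 hmin (y', b) ⟨⟨h3, h2⟩, ⟨hb1, hb2⟩⟩
    have h5 : y' = y := by
      rw [Set.mem_uIcc] at hy hy'
      rcases abs_cases (a - b) with h6 | h6 <;> rcases abs_cases (y' - b) with h7 | h7 <;>
        rcases hy with h8 | h8 <;> rcases hy' with h9 | h9 <;> linarith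
    rw [h5] at h2
    linarith
  · obtain ⟨y', hy', h2⟩ := hivt a y d (Set.mem_uIcc.2 (Or.inl ⟨by rw [ha2']; exact hcd, h1.le⟩))
    have h3 : y' ∈ Set.uIcc u v := Set.uIcc_subset_uIcc ha1 hyuv hy'
    have h4 : |a - b| ≤ |a - y'| := isMinOn_iff.1 hmin (a, y') ⟨⟨ha1, ha2⟩, ⟨h3, h2⟩⟩
    have h5 : y' = y := by
      rw [Set.mem_uIcc] at hy hy'
      rcases abs_cases (a - b) with h6 | h6 <;> rcases abs_cases (a - y') with h7 | h7 <;>
        rcases hy with h8 | h8 <;> rcases hy' with h9 | h9 <;> linarith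
    rw [h5] at h2
    linarith

/-- Chain lemma. -/
theorem chain {F : ℝ → ℝ} (hF : Continuous F) (a b : ℕ → ℝ) (hab : ∀ i, a i ≤ b i)
    (hcov : ∀ i, Set.Icc (a (i + 1)) (b (i + 1)) ⊆ Set.uIcc (F (a i)) (F (b i))) :
    ∀ (N : ℕ) (c d : ℝ), c ≤ d → c ∈ Set.Icc (a N) (b N) → d ∈ Set.Icc (a N) (b N) →
      ∃ u ∈ Set.Icc (a 0) (b 0), ∃ v ∈ Set.Icc (a 0) (b 0), F^[N] u = c ∧ F^[N] v = d ∧
        ∀ y ∈ Set.uIcc u v, F^[N] y ∈ Set.Icc c d ∧ ∀ i ≤ N, F^[i] y ∈ Set.Icc (a i) (b i) := by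
  intro N
  induction N with
  | zero =>
    intro c d hcd hc hd
    refine ⟨c, hc, d, hd, rfl, rfl, fun y hy => ?_⟩
    rw [Set.uIcc_of_le hcd] at hy
    refine ⟨hy, fun i hi => ?_⟩
    obtain rfl : i = 0 := by omega
    exact ⟨hc.1.trans hy.1, hy.2.trans hd.2⟩
  | succ N ih =>
    intro c d hcd hc hd
    have h1 : ∃ u' ∈ Set.Icc (a N) (b N), ∃ v' ∈ Set.Icc (a N) (b N), F u' = c ∧ F v' = d ∧
        ∀ y ∈ Set.uIcc u' v', F y ∈ Set.Icc c d := by
      have hc' := hcov N hc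
      have hd' := hcov N hd
      rw [Set.mem_uIcc] at hc' hd'
      rcases le_total (F (a N)) (F (b N)) with h | h
      · have h2 := cover hF (u := a N) (v := b N) (c := c) (d := d) (by
          rcases hc' with h3 | h3 <;> linarith) hcd (by
          rcases hd' with h3 | h3 <;> linarith)
        rwa [Set.uIcc_of_le (hab N)] at h2
      · have h2 := cover hF (u := b N) (v := a N) (c := c) (d := d) (by
          rcases hc' with h3 | h3 <;> linarith) hcd (by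
          rcases hd' with h3 | h3 <;> linarith)
        rwa [Set.uIcc_of_ge (hab N)] at h2
    obtain ⟨u', hu', v', hv', hu, hv, hy'⟩ := h1
    rcases le_total u' v' with h | h
    · obtain ⟨u, hu1, v, hv1, hu2, hv2, hy⟩ := ih u' v' h hu' hv'
      refine ⟨u, hu1, v, hv1, by rw [Function.iterate_succ_apply', hu2, hu],
        by rw [Function.iterate_succ_apply', hv2, hv], fun y hyuv => ?_⟩
      obtain ⟨h3, h4⟩ := hy y hyuv
      have h5 : F^[N + 1] y ∈ Set.Icc c d := by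
        rw [Function.iterate_succ_apply']
        refine hy' _ ?_
        rwa [Set.uIcc_of_le h]
      refine ⟨h5, fun i hi => ?_⟩
      rcases Nat.lt_or_ge i (N + 1) with h6 | h6
      · exact h4 i (by omega)
      · obtain rfl : i = N + 1 := by omega
        exact ⟨hc.1.trans h5.1, h5.2.trans hd.2⟩
    · obtain ⟨v, hv1, u, hu1, hv2, hu2, hy⟩ := ih v' u' h hv' hu'
      refine ⟨u, hu1, v, hv1, by rw [Function.iterate_succ_apply', hu2, hu],
        by rw [Function.iterate_succ_apply', hv2, hv], fun y hyuv => ?_⟩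
      rw [Set.uIcc_comm] at hyuv
      obtain ⟨h3, h4⟩ := hy y hyuv
      have h5 : F^[N + 1] y ∈ Set.Icc c d := by
        rw [Function.iterate_succ_apply']
        refine hy' _ ?_
        rwa [Set.uIcc_of_ge h]
      refine ⟨h5, fun i hi => ?_⟩
      rcases Nat.lt_or_ge i (N + 1) with h6 | h6
      · exact h4 i (by omega)
      · obtain rfl : i = N + 1 := by omega
        exact ⟨hc.1.trans h5.1, h5.2.trans hd.2⟩

/-- Periodic point lemma. -/
theorem chain_periodic {F : ℝ → ℝ} (hF : Continuous F) (a b : ℕ → ℝ) (hab : ∀ i, a i ≤ b i)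
    (hcov : ∀ i, Set.Icc (a (i + 1)) (b (i + 1)) ⊆ Set.uIcc (F (a i)) (F (b i))) (N : ℕ)
    (haN : a N = a 0) (hbN : b N = b 0) :
    ∃ p, F^[N] p = p ∧ ∀ i ≤ N, F^[i] p ∈ Set.Icc (a i) (b i) := by
  obtain ⟨u, hu, v, hv, hu1, hv1, hy⟩ := chain hF a b hab hcov N (a 0) (b 0) (hab 0)
    (by rw [haN, hbN]; exact ⟨le_rfl, hab 0⟩) (by rw [haN, hbN]; exact ⟨hab 0, le_rfl⟩)
  have hc : Continuous fun y => F^[N] y - y := (hF.iterate N).sub continuous_id
  obtain ⟨p, hp, h⟩ := intermediate_value_uIcc (a := u) (b := v) hc.continuousOn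
    (show (0 : ℝ) ∈ Set.uIcc (F^[N] u - u) (F^[N] v - v) by
      rw [Set.mem_uIcc, hu1, hv1]
      left
      exact ⟨by linarith [hu.1], by linarith [hv.2]⟩)
  exact ⟨p, by linarith [show F^[N] p - p = 0 from h], (hy p hp).2⟩

end Pool.Agent.X177.SA
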