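import Mathlib

set_option autoImplicit false

namespace Pool.Agent.X177.SA

open Filter Topology

/-- Clamp of `t` to the interval between `p` and `q`. -/
noncomputable def clamp (p q t : ℝ) : ℝ := max (min p q) (min (max p q) t)

theorem clamp_mem (p q t : ℝ) : clamp p q t ∈ Set.uIcc p q := by
  unfold clamp Set.uIcc
  exact ⟨le_max_left _ _, max_le min_le_max (min_le_left _ _)⟩

theorem clamp_of_mem {p q t : ℝ} (h : t ∈ Set.uIcc p q) : clamp p q t = t := by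
  unfold clamp
  have h1 : min p q ≤ t := h.1
  have h2 : t ≤ max p q := h.2
  rw [min_eq_right h2, max_eq_right h1]

theorem clamp_lip (p q s t : ℝ) : |clamp p q s - clamp p q t| ≤ |s - t| := by
  unfold clamp
  have h1 : |max (min p q) (min (max p q) s) - max (min p q) (min (max p q) t)| ≤
      |min (max p q) s - min (max p q) t| := by
    rw [max_comm (min p q) (min (max p q) s), max_comm (min p q) (min (max p q) t)]
    exact abs_max_sub_max_le_abs _ _ _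
  have h2 : |min (max p q) s - min (max p q) t| ≤ |s - t| := by
    refine (abs_min_sub_min_le_max _ _ _ _).trans ?_
    rw [sub_self, abs_zero]
    exact max_le (abs_nonneg _) le_rfl
  exact h1.trans h2

section

variable {S : Set ℝ} {c d : ℝ}

/-- Left end of the gap. -/
noncomputable def gl (S : Set ℝ) (c y : ℝ) : ℝ := sSup (S ∩ Set.Icc c y)

/-- Right end of the gap. -/
noncomputable def gr (S : Set ℝ) (d y : ℝ) : ℝ := sInf (S ∩ Set.Icc y d)

theorem gl_spec (hS : IsClosed S) (hc : c ∈ S) {y : ℝ} (hy : c ≤ y) :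
    gl S c y ∈ S ∧ c ≤ gl S c y ∧ gl S c y ≤ y ∧ ∀ s ∈ S, s ≤ y → s ≤ gl S c y := by
  have h1 : IsCompact (S ∩ Set.Icc c y) := isCompact_Icc.inter_left hS
  have h2 := h1.isGreatest_sSup ⟨c, hc, le_rfl, hy⟩
  refine ⟨h2.1.1, h2.1.2.1, h2.1.2.2, fun s hs hsy => ?_⟩
  rcases le_total c s with h | h
  · exact h2.2 ⟨hs, h, hsy⟩
  · exact h.trans h2.1.2.1

theorem gr_spec (hS : IsClosed S) (hd : d ∈ S) {y : ℝ} (hy : y ≤ d) :
    gr S d y ∈ S ∧ gr S d y ≤ d ∧ y ≤ gr S d y ∧ ∀ s ∈ S, y ≤ s → gr S d y ≤ s := by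
  have h1 : IsCompact (S ∩ Set.Icc y d) := isCompact_Icc.inter_left hS
  have h2 := h1.isLeast_sInf ⟨d, hd, hy, le_rfl⟩
  refine ⟨h2.1.1, h2.1.2.2, h2.1.2.1, fun s hs hsy => ?_⟩
  rcases le_total s d with h | h
  · exact h2.2 ⟨hs, hsy, h⟩
  · exact h2.1.2.2.trans h

/-- The clamped map. -/
noncomputable def gg (S : Set ℝ) (c d : ℝ) (f : ℝ → ℝ) (y : ℝ) : ℝ :=
  clamp (f (gl S c y)) (f (gr S d y)) (f y)

variable {f : ℝ → ℝ}

theorem gg_mem (y : ℝ) : gg S c d f y ∈ Set.uIcc (f (gl S c y)) (f (gr S d y)) := clamp_mem _ _ _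

theorem gg_of_mem (hS : IsClosed S) (hc : c ∈ S) (hd : d ∈ S) {y : ℝ} (hy : y ∈ Set.Icc c d)
    (hyS : y ∈ S) : gg S c d f y = f y := by
  obtain ⟨_, _, h1, h2⟩ := gl_spec hS hc hy.1
  obtain ⟨_, _, h3, h4⟩ := gr_spec hS hd hy.2
  have h5 : gl S c y = y := le_antisymm h1 (h2 y hyS le_rfl)
  unfold gg
  rw [h5]
  exact clamp_of_mem Set.left_mem_uIcc

theorem gg_est (hS : IsClosed S) (hc : c ∈ S) (hd : d ∈ S) {y z : ℝ} (hy : y ∈ Set.Icc c d)
    (hz : z ∈ Set.Icc c d) (hyz : y ≤ z) {ε : ℝ}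
    (hε : ∀ s ∈ Set.Icc y z, ∀ t ∈ Set.Icc y z, |f s - f t| ≤ ε) :
    |gg S c d f y - gg S c d f z| ≤ 3 * ε := by
  have hε0 : 0 ≤ ε := (abs_nonneg _).trans (hε y ⟨le_rfl, hyz⟩ y ⟨le_rfl, hyz⟩)
  obtain ⟨a1, a2, a3, a4⟩ := gl_spec hS hc hy.1
  obtain ⟨b1, b2, b3, b4⟩ := gr_spec hS hd hy.2
  obtain ⟨c1, c2, c3, c4⟩ := gl_spec hS hc hz.1
  obtain ⟨d1, d2, d3, d4⟩ := gr_spec hS hd hz.2
  by_cases h : ∃ s ∈ S, y ≤ s ∧ s ≤ z
  · obtain ⟨s, hs, h1, h2⟩ := h
    have e1 : gr S d y ≤ s := b4 s hs h1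
    have e2 : s ≤ gl S c z := c4 s hs h2
    have f1 : |gg S c d f y - f (gr S d y)| ≤ ε := by
      have h3 := clamp_lip (f (gl S c y)) (f (gr S d y)) (f y) (f (gr S d y))
      rw [clamp_of_mem Set.right_mem_uIcc] at h3
      exact h3.trans (hε _ ⟨le_rfl, hyz⟩ _ ⟨b3, e1.trans h2⟩)
    have f2 : |gg S c d f z - f (gl S c z)| ≤ ε := by
      have h3 := clamp_lip (f (gl S c z)) (f (gr S d z)) (f z) (f (gl S c z))
      rw [clamp_of_mem Set.left_mem_uIcc] at h3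
      exact h3.trans (hε _ ⟨hyz, le_rfl⟩ _ ⟨h1.trans e2, c3⟩)
    have f3 : |f (gr S d y) - f (gl S c z)| ≤ ε :=
      hε _ ⟨b3, e1.trans h2⟩ _ ⟨h1.trans e2, c3⟩
    rw [abs_le] at *
    constructor <;> linarith [f1.1, f1.2, f2.1, f2.2, f3.1, f3.2]
  · push Not at h
    have e1 : gl S c y = gl S c z := by
      refine le_antisymm (c4 _ a1 (a3.trans hyz)) (a4 _ c1 ?_)
      by_contra h1
      push Not at h1
      linarith [h _ c1 h1.le]
    have e2 : gr S d y = gr S d z := by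
      refine le_antisymm (b4 _ d1 (hyz.trans d3)) (d4 _ b1 ?_)
      exact (h _ b1 b3).le
    have f1 : |gg S c d f y - gg S c d f z| ≤ ε := by
      unfold gg
      rw [e1, e2]
      exact (clamp_lip _ _ _ _).trans (hε _ ⟨le_rfl, hyz⟩ _ ⟨hyz, le_rfl⟩)
    linarith

theorem gg_continuousOn (hS : IsClosed S) (hc : c ∈ S) (hd : d ∈ S) (hf : Continuous f) :
    ContinuousOn (gg S c d f) (Set.Icc c d) := by
  have hu : UniformContinuousOn f (Set.Icc c d) :=
    isCompact_Icc.uniformContinuousOn_of_continuous hf.continuousOn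
  rw [Metric.uniformContinuousOn_iff] at hu
  rw [Metric.continuousOn_iff]
  intro y hy ε hε
  obtain ⟨δ, hδ, h⟩ := hu (ε / 4) (by positivity)
  refine ⟨δ, hδ, fun z hz hzy => ?_⟩
  rw [Real.dist_eq] at hzy ⊢
  have key : ∀ y ∈ Set.Icc c d, ∀ z ∈ Set.Icc c d, y ≤ z → |z - y| < δ →
      |gg S c d f y - gg S c d f z| ≤ 3 * (ε / 4) := by
    intro y hy z hz hyz hzy
    refine gg_est hS hc hd hy hz hyz fun s hs t ht => ?_
    have h1 := h s ⟨hy.1.trans hs.1, hs.2.trans hz.2⟩ t ⟨hy.1.trans ht.1, ht.2.trans hz.2⟩ (by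
      rw [Real.dist_eq]
      rw [abs_lt] at hzy ⊢
      constructor <;> linarith [hs.1, hs.2, ht.1, ht.2])
    rw [Real.dist_eq] at h1
    exact h1.le
  rcases le_total y z with h1 | h1
  · have h2 := key y hy z hz h1 hzy
    rw [abs_sub_comm] at h2
    linarith
  · have h2 := key z hz y hy h1 (by rwa [abs_sub_comm])
    linarith

/-- The global clamped map. -/
noncomputable def GGm (S : Set ℝ) (c d : ℝ) (f : ℝ → ℝ) (y : ℝ) : ℝ :=
  gg S c d f (max c (min d y))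

theorem GGm_continuous (hS : IsClosed S) (hc : c ∈ S) (hd : d ∈ S) (hcd : c ≤ d)
    (hf : Continuous f) : Continuous (GGm S c d f) := by
  have h1 : Continuous fun y : ℝ => max c (min d y) := by fun_prop
  exact (gg_continuousOn hS hc hd hf).comp_continuous h1
    fun y => ⟨le_max_left _ _, max_le hcd (min_le_left _ _)⟩

theorem GGm_eq {y : ℝ} (hy : y ∈ Set.Icc c d) : GGm S c d f y = gg S c d f y := by
  unfold GGm
  rw [min_eq_right hy.2, max_eq_right hy.1]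

end

end Pool.Agent.X177.SA
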