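import Pool.Agent.X177.SA.Basic

set_option autoImplicit false

namespace Pool.Agent.X177.SA

open Filter Topology

/-- The forward orbit of a neighbourhood of `p`. -/
def DD (h : ℝ → ℝ) (p ε : ℝ) : Set ℝ :=
  {w | ∃ y ∈ Set.Icc (0 : ℝ) 1, |y - p| ≤ ε ∧ ∃ q, h^[q] y = w}

/-- The points whose tree accumulates at `p`. -/
def GG (f : ℝ → ℝ) (p : ℝ) : Set ℝ :=
  {w | w ∈ Set.Icc (0 : ℝ) 1 ∧ ∀ ε > 0, ∃ y ∈ Set.Icc (0 : ℝ) 1, |y - p| ≤ ε ∧ ∃ k, f^[k] y = w}

/-- The intersection of the sets `DD`. -/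
def DS (h : ℝ → ℝ) (p : ℝ) : Set ℝ := {w | ∀ ε > 0, w ∈ DD h p ε}

section

variable {f : ℝ → ℝ} {p : ℝ} {N : ℕ}

theorem DD_ordConnected {h : ℝ → ℝ} (hc : Continuous h) (hp : p ∈ Set.Icc (0 : ℝ) 1)
    (hpp : h p = p) {ε : ℝ} (hε : 0 < ε) : (DD h p ε).OrdConnected := by
  have h1 : DD h p ε = ⋃ q : ℕ, h^[q] '' (Set.Icc (0 : ℝ) 1 ∩ Set.Icc (p - ε) (p + ε)) := by
    ext w
    simp only [DD, Set.mem_ofPred_eq, Set.mem_iUnion, Set.mem_image, Set.mem_inter_iff]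
    constructor
    · rintro ⟨y, hy, hyp, q, hq⟩
      rw [abs_le] at hyp
      exact ⟨q, y, ⟨hy, by constructor <;> linarith⟩, hq⟩
    · rintro ⟨q, y, ⟨hy, hy1, hy2⟩, hq⟩
      exact ⟨y, hy, abs_le.2 (by constructor <;> linarith), q, hq⟩
  rw [h1]
  refine (isPreconnected_iUnion ⟨p, Set.mem_iInter.2 fun q => ?_⟩ fun q => ?_).ordConnected
  · exact ⟨p, ⟨hp, by constructor <;> linarith⟩, Function.iterate_fixed hpp q⟩
  · refine IsPreconnected.image ?_ _ (hc.iterate q).continuousOn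
    rw [Set.Icc_inter_Icc]
    exact isPreconnected_Icc

theorem DD_p {h : ℝ → ℝ} (hp : p ∈ Set.Icc (0 : ℝ) 1) {ε : ℝ} (hε : 0 < ε) : p ∈ DD h p ε :=
  ⟨p, hp, by simpa using hε.le, 0, rfl⟩

theorem DD_mem {h : ℝ → ℝ} (hI : ∀ x, h x ∈ Set.Icc (0 : ℝ) 1) {ε t : ℝ} (ht : t ∈ DD h p ε) :
    t ∈ Set.Icc (0 : ℝ) 1 := by
  obtain ⟨y, hy, _, q, rfl⟩ := ht
  exact iter_mem hI hy q

theorem mem_uIcc_aux {σ δ t : ℝ} (hσ : σ = 1 ∨ σ = -1) (hδ : 0 < δ) (ht : δ ≤ σ * (t - p)) :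
    p + σ * δ ∈ Set.uIcc p t := by
  rw [Set.mem_uIcc]
  rcases hσ with rfl | rfl
  · left
    constructor <;> linarith
  · right
    constructor <;> linarith

theorem shrink {h : ℝ → ℝ} (hc : Continuous h) (hI : ∀ x, h x ∈ Set.Icc (0 : ℝ) 1)
    (hp : p ∈ Set.Icc (0 : ℝ) 1) (hpp : h p = p) {σ : ℝ} (hσ : σ = 1 ∨ σ = -1)
    (htriv : ∀ t ∈ Set.Icc (0 : ℝ) 1, 0 < σ * (t - p) → t ∉ DS h p) {δ : ℝ} (hδ : 0 < δ) :
    ∃ ε > 0, ∀ t ∈ DD h p ε, σ * (t - p) < δ := by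
  by_cases hs : p + σ * δ ∈ Set.Icc (0 : ℝ) 1
  · have h1 := htriv _ hs (by
      rcases hσ with rfl | rfl <;> simp [hδ])
    rw [DS, Set.mem_ofPred_eq] at h1
    push Not at h1
    obtain ⟨ε, hε, h2⟩ := h1
    refine ⟨ε, hε, fun t ht => ?_⟩
    by_contra h3
    push Not at h3
    exact h2 ((DD_ordConnected hc hp hpp hε).uIcc_subset (DD_p hp hε) ht
      (mem_uIcc_aux hσ hδ h3))
  · refine ⟨1, one_pos, fun t ht => ?_⟩
    by_contra h3
    push Not at h3
    exact hs ((Set.ordConnected_Icc).uIcc_subset hp (DD_mem hI ht) (mem_uIcc_aux hσ hδ h3))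

theorem DS_uIcc {h : ℝ → ℝ} (hc : Continuous h) (hp : p ∈ Set.Icc (0 : ℝ) 1)
    (hpp : h p = p) {t y : ℝ} (ht : t ∈ DS h p) (hy : y ∈ Set.uIcc p t) : y ∈ DS h p :=
  fun ε hε => (DD_ordConnected hc hp hpp hε).uIcc_subset (DD_p hp hε) (ht ε hε) hy

theorem DS_subset_GG (hI : ∀ x, f x ∈ Set.Icc (0 : ℝ) 1) {w : ℝ} (hw : w ∈ DS (f^[N]) p) :
    w ∈ GG f p := by
  constructor
  · obtain ⟨y, hy, _, q, rfl⟩ := hw 1 one_pos
    rw [← Function.iterate_mul]
    exact iter_mem hI hy _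
  · intro ε hε
    obtain ⟨y, hy, h1, q, rfl⟩ := hw ε hε
    exact ⟨y, hy, h1, N * q, by rw [Function.iterate_mul]⟩

theorem GG_step (hc : Continuous f) (hI : ∀ x, f x ∈ Set.Icc (0 : ℝ) 1) (hN : 1 ≤ N)
    (hp : p ∈ Set.Icc (0 : ℝ) 1) (hpp : f^[N] p = p) {w : ℝ} (hw : w ∈ GG f p) {η : ℝ}
    (hη : 0 < η) : ∃ y ∈ GG f p, |y - p| ≤ η ∧ ∃ k, 1 ≤ k ∧ f^[k] y = w := by
  have hpG : p ∈ GG f p := ⟨hp, fun ε hε => ⟨p, hp, by simpa using hε.le, 0, rfl⟩⟩
  by_cases hP : ∃ j < N, f^[j] p = w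
  · obtain ⟨j, hj, h1⟩ := hP
    refine ⟨p, hpG, by simpa using hη.le, j + N, by omega, ?_⟩
    rw [Function.iterate_add_apply, hpp, h1]
  push Not at hP
  have hwp : w ≠ p := fun h => hP 0 (by omega) h.symm
  have hwp' : 0 < |w - p| := abs_pos.2 (sub_ne_zero.2 hwp)
  have hcN : Continuous f^[N] := hc.iterate N
  have hIN : ∀ x, f^[N] x ∈ Set.Icc (0 : ℝ) 1 := by
    intro x
    obtain ⟨n, rfl⟩ : ∃ n, N = n + 1 := ⟨N - 1, by omega⟩
    rw [Function.iterate_succ_apply']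
    exact hI _
  obtain ⟨δ0, hδ0, hδ0'⟩ : ∃ δ0 > 0, ∀ t, |t - p| < δ0 → ∀ j < N, f^[j] t ≠ w := by
    have h1 : ∀ᶠ t in 𝓝 p, ∀ j ∈ Finset.range N, f^[j] t ≠ w := by
      rw [Filter.eventually_all_finset]
      intro j hj
      exact ((hc.iterate j).tendsto p).eventually_ne (hP j (Finset.mem_range.1 hj))
    rw [Metric.eventually_nhds_iff] at h1
    obtain ⟨δ, hδ, h2⟩ := h1
    exact ⟨δ, hδ, fun t ht j hj => h2 (by rwa [Real.dist_eq]) j (Finset.mem_range.2 hj)⟩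
  have hdecomp : ∀ (y : ℝ) (k : ℕ), f^[k] y = f^[k % N] ((f^[N])^[k / N] y) := by
    intro y k
    rw [← Function.iterate_mul, ← Function.iterate_add_apply]
    congr 2
    have := Nat.mod_add_div k N
    omega
  -- one side
  have oneside : ∀ σ : ℝ, (σ = 1 ∨ σ = -1) →
      (∀ t ∈ Set.Icc (0 : ℝ) 1, 0 < σ * (t - p) → t ∉ DS f^[N] p) →
      (∃ t ∈ DS f^[N] p, σ * (t - p) < 0) →
      ∃ y ∈ GG f p, |y - p| ≤ η ∧ ∃ k, 1 ≤ k ∧ f^[k] y = w := by
    rintro σ hσ htriv ⟨t1, ht1, ht1'⟩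
    have hσabs : ∀ a : ℝ, |σ * a| = |a| := by
      intro a
      rcases hσ with rfl | rfl <;> simp
    by_contra hcon
    push Not at hcon
    set η1 := min η (min (-(σ * (t1 - p))) (|w - p| / 2)) with hη1
    have hη1pos : 0 < η1 := lt_min hη (lt_min (by linarith) (by positivity))
    have hη1a : η1 ≤ η := min_le_left _ _
    have hη1b : η1 ≤ -(σ * (t1 - p)) := (min_le_right _ _).trans (min_le_left _ _)
    have hη1c : η1 ≤ |w - p| / 2 := (min_le_right _ _).trans (min_le_right _ _)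
    have hno : ∀ y ∈ Set.Icc (0 : ℝ) 1, σ * (y - p) ≤ 0 → -η1 ≤ σ * (y - p) →
        ∀ k, f^[k] y ≠ w := by
      intro y hy h1 h2 k h3
      have h4 : |y - p| ≤ η1 := by
        rw [← hσabs, abs_le]
        constructor <;> linarith
      have h5 : y ∈ DS f^[N] p := by
        refine DS_uIcc hcN hp hpp ht1 ?_
        rw [Set.mem_uIcc]
        rcases hσ with rfl | rfl
        · right
          constructor <;> linarith
        · left
          constructor <;> linarith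
      have hk : 1 ≤ k := by
        by_contra h6
        have h7 : k = 0 := by omega
        rw [h7] at h3
        have h8 : y = w := h3
        rw [h8] at h4
        linarith
      exact hcon y (DS_subset_GG hI h5) (h4.trans hη1a) k hk h3
    obtain ⟨δ1, hδ1, hδ1'⟩ : ∃ δ1 > 0, ∀ t, |t - p| < δ1 → |f^[N] t - p| ≤ η1 := by
      have h1 := Metric.continuousAt_iff.1 (hcN.continuousAt (x := p)) η1 hη1pos
      obtain ⟨δ, hδ, h2⟩ := h1
      refine ⟨δ, hδ, fun t ht => ?_⟩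
      have h3 := h2 (show dist t p < δ by rwa [Real.dist_eq])
      rw [hpp, Real.dist_eq] at h3
      exact h3.le
    obtain ⟨ε, hε, hεD⟩ := shrink hcN hIN hp hpp hσ htriv (lt_min hδ0 hδ1)
    obtain ⟨y, hy, hyp, k, hk⟩ := hw.2 (min ε η1) (lt_min hε hη1pos)
    have hyε : |y - p| ≤ ε := hyp.trans (min_le_left _ _)
    have hyη : |y - p| ≤ η1 := hyp.trans (min_le_right _ _)
    have hpos : ∀ i, i ≤ k / N → 0 < σ * ((f^[N])^[i] y - p) := by
      intro i
      induction i with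
      | zero =>
        intro _
        by_contra h1
        push Not at h1
        rw [← hσabs, abs_le] at hyη
        exact hno y hy h1 hyη.1 k hk
      | succ i ih =>
        intro hi
        have h1 := ih (by omega)
        have h2 : σ * ((f^[N])^[i] y - p) < min δ0 δ1 := hεD _ ⟨y, hy, hyε, i, rfl⟩
        have h3 : |(f^[N])^[i] y - p| < δ1 := by
          rw [← hσabs, abs_of_pos h1]
          exact h2.trans_le (min_le_right _ _)
        have h4 := hδ1' _ h3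
        by_contra h5
        push Not at h5
        rw [Function.iterate_succ_apply'] at h5
        rw [← hσabs, abs_le] at h4
        refine hno _ (hIN _) h5 h4.1 (k - N * (i + 1)) ?_
        rw [← Function.iterate_succ_apply' (f^[N]), ← Function.iterate_mul,
          ← Function.iterate_add_apply]
        have h6 : N * (i + 1) ≤ k := by
          have := Nat.div_mul_le_self k N
          have h7 : (i + 1) * N ≤ k / N * N := Nat.mul_le_mul_right N hi
          linarith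
        have h7 : k - N * (i + 1) + N * i.succ = k := by
          simp only [Nat.succ_eq_add_one]
          omega
        rw [h7, hk]
    have h1 := hpos (k / N) le_rfl
    have h2 : σ * ((f^[N])^[k / N] y - p) < min δ0 δ1 := hεD _ ⟨y, hy, hyε, k / N, rfl⟩
    have h3 : |(f^[N])^[k / N] y - p| < δ0 := by
      rw [← hσabs, abs_of_pos h1]
      exact h2.trans_le (min_le_left _ _)
    refine hδ0' _ h3 (k % N) (Nat.mod_lt _ (by omega)) ?_
    rw [← hdecomp, hk]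
  by_cases h1 : ∀ t ∈ Set.Icc (0 : ℝ) 1, 0 < (1 : ℝ) * (t - p) → t ∉ DS f^[N] p
  · by_cases h2 : ∀ t ∈ Set.Icc (0 : ℝ) 1, 0 < (-1 : ℝ) * (t - p) → t ∉ DS f^[N] p
    · exfalso
      obtain ⟨ε1, hε1, he1⟩ := shrink hcN hIN hp hpp (Or.inl rfl) h1 hδ0
      obtain ⟨ε2, hε2, he2⟩ := shrink hcN hIN hp hpp (Or.inr rfl) h2 hδ0
      obtain ⟨y, hy, hyp, k, hk⟩ := hw.2 (min ε1 ε2) (lt_min hε1 hε2)
      have a1 := he1 _ ⟨y, hy, hyp.trans (min_le_left _ _), k / N, rfl⟩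
      have a2 := he2 _ ⟨y, hy, hyp.trans (min_le_right _ _), k / N, rfl⟩
      refine hδ0' ((f^[N])^[k / N] y) (abs_lt.2 ⟨by linarith, by linarith⟩) (k % N)
        (Nat.mod_lt _ (by omega)) ?_
      rw [← hdecomp, hk]
    · push Not at h2
      obtain ⟨t, ht, ht1, ht2⟩ := h2
      exact oneside 1 (Or.inl rfl) h1 ⟨t, ht2, by linarith⟩
  · push Not at h1
    obtain ⟨t2, ht2, ht2', ht2''⟩ := h1
    by_cases h2 : ∀ t ∈ Set.Icc (0 : ℝ) 1, 0 < (-1 : ℝ) * (t - p) → t ∉ DS f^[N] p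
    · exact oneside (-1) (Or.inr rfl) h2 ⟨t2, ht2'', by linarith⟩
    · push Not at h2
      obtain ⟨t1, ht1, ht1', ht1''⟩ := h2
      have e1 : 0 < min (min η (|w - p| / 2)) (min (p - t1) (t2 - p)) :=
        lt_min (lt_min hη (by positivity)) (lt_min (by linarith) (by linarith))
      obtain ⟨y, hy, hyp, k, hk⟩ := hw.2 _ e1
      have b1 : |y - p| ≤ η := hyp.trans ((min_le_left _ _).trans (min_le_left _ _))
      have b2 : |y - p| ≤ |w - p| / 2 := hyp.trans ((min_le_left _ _).trans (min_le_right _ _))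
      have b3 : |y - p| ≤ p - t1 := hyp.trans ((min_le_right _ _).trans (min_le_left _ _))
      have b4 : |y - p| ≤ t2 - p := hyp.trans ((min_le_right _ _).trans (min_le_right _ _))
      rw [abs_le] at b3 b4
      have hyD : y ∈ DS f^[N] p := by
        rcases le_total y p with h3 | h3
        · exact DS_uIcc hcN hp hpp ht1'' (Set.mem_uIcc.2 (Or.inr ⟨by linarith, h3⟩))
        · exact DS_uIcc hcN hp hpp ht2'' (Set.mem_uIcc.2 (Or.inl ⟨h3, by linarith⟩))
      refine ⟨y, DS_subset_GG hI hyD, b1, k, ?_, hk⟩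
      by_contra h6
      have h7 : k = 0 := by omega
      rw [h7] at hk
      have h8 : y = w := hk
      rw [h8] at b2
      linarith

/-- A periodic point in the closure of the backward tree is in the special alpha-limit set. -/
theorem mem_sAlpha_of_closure (hc : Continuous f) (hI : ∀ x, f x ∈ Set.Icc (0 : ℝ) 1)
    (hN : 1 ≤ N) (hpp : f^[N] p = p) {x : ℝ} (hx : p ∈ closure (tree f x)) : p ∈ sAlpha f x := by
  have hp : p ∈ Set.Icc (0 : ℝ) 1 := by
    have h1 : closure (tree f x) ⊆ Set.Icc (0 : ℝ) 1 :=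
      closure_minimal (fun w hw => hw.1) isClosed_Icc
    exact h1 hx
  have hxG : x ∈ GG f p := by
    have h1 : ∀ ε > 0, ∃ y ∈ Set.Icc (0 : ℝ) 1, |y - p| ≤ ε ∧ ∃ k, f^[k] y = x := by
      intro ε hε
      obtain ⟨y, ⟨hy, k, _, hk⟩, hyd⟩ := Metric.mem_closure_iff.1 hx ε hε
      rw [dist_comm, Real.dist_eq] at hyd
      exact ⟨y, hy, hyd.le, k, hk⟩
    refine ⟨?_, h1⟩
    obtain ⟨y, hy, _, k, rfl⟩ := h1 1 one_pos
    exact iter_mem hI hy k
  have hstep : ∀ (m : ℕ) (w : GG f p), ∃ (y : GG f p) (k : ℕ), |y.1 - p| ≤ 1 / ((m : ℝ) + 1) ∧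
      1 ≤ k ∧ f^[k] y.1 = w.1 := by
    rintro m ⟨w, hw⟩
    obtain ⟨y, hy, h1, k, h2, h3⟩ := GG_step hc hI hN hp hpp hw
      (show (0 : ℝ) < 1 / ((m : ℝ) + 1) by positivity)
    exact ⟨⟨y, hy⟩, k, h1, h2, h3⟩
  choose Y K hY hK hYK using hstep
  let s : ℕ → GG f p := fun n => Nat.rec ⟨x, hxG⟩ (fun m v => Y m v) n
  obtain ⟨z, hz, hzy⟩ := exists_branch hI (fun m => (s m).1) (fun m => K m (s m))
    (fun m => hK m (s m)) (fun m => (s m).2.1) (fun m => hYK m (s m))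
  have hmono : StrictMono fun m => ∑ i ∈ Finset.range m, K i (s i) := by
    refine strictMono_nat_of_lt_succ fun m => ?_
    rw [Finset.sum_range_succ]
    have := hK m (s m)
    omega
  refine ⟨z, hz, fun m => ∑ i ∈ Finset.range m, K i (s i), hmono, ?_⟩
  have h1 : (z ∘ fun m => ∑ i ∈ Finset.range m, K i (s i)) = fun m => (s m).1 := by
    funext m
    exact hzy m
  rw [h1, ← tendsto_add_atTop_iff_nat 1, tendsto_iff_dist_tendsto_zero]
  refine squeeze_zero (fun m => dist_nonneg) (fun m => ?_) tendsto_one_div_add_atTop_nhds_zero_nat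
  rw [Real.dist_eq]
  exact hY m (s m)

end

end Pool.Agent.X177.SA
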