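import Pool.Agent.X177.SA.Closure
import Pool.Agent.X177.SA.Chain
import Pool.Agent.X177.SA.Clamp

set_option autoImplicit false

namespace Pool.Agent.X177.SA

open Filter Topology

variable {f : ℝ → ℝ}

theorem closure_map (hf : Continuous f) {x s : ℝ} (hs : s ∈ closure (sAlpha f x)) :
    f s ∈ closure (sAlpha f x) :=
  map_mem_closure hf hs fun _ hy => sAlpha_map hf hy

theorem closure_iter (hf : Continuous f) {x s : ℝ} (hs : s ∈ closure (sAlpha f x)) (i : ℕ) :
    f^[i] s ∈ closure (sAlpha f x) := by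
  induction i with
  | zero => exact hs
  | succ i ih =>
    rw [Function.iterate_succ_apply']
    exact closure_map hf ih

theorem hasOrbit_of_closure (hf : Continuous f) (hI : ∀ x, f x ∈ Set.Icc (0 : ℝ) 1) {x e : ℝ}
    (he : e ∈ closure (sAlpha f x)) {m : ℕ} (hm : 1 ≤ m) (hmin : Function.minimalPeriod f e = m) :
    HasOrbit f (sAlpha f x) m := by
  have hper : f^[m] e = e := by
    have := Function.isPeriodicPt_minimalPeriod f e
    rw [hmin] at this
    exact this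
  refine ⟨e, closure_minimal sAlpha_subset isClosed_Icc he, hmin, hm, fun i => ?_⟩
  refine mem_sAlpha_of_closure hf hI hm ?_ (closure_sAlpha_subset (closure_iter hf he i))
  rw [← Function.iterate_add_apply, add_comm, Function.iterate_add_apply, hper]

/-- The itinerary intervals, left ends. -/
noncomputable def aW (n : ℕ) (l1 r1 : ℝ) (i : ℕ) : ℝ :=
  open Classical in if n ∣ i ∧ n ≠ 1 then l1 else r1

theorem minPeriod_Y {n : ℕ} (hn : 1 ≤ n) {l1 l2 r1 r2 c e : ℝ}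
    (hLR : ∀ t, l1 ≤ t → t ≤ l2 → r1 ≤ t → t ≤ r2 → t = c)
    (hc3 : Function.minimalPeriod f c = 3) (hcc : ¬ (r1 ≤ f (f c) ∧ f (f c) ≤ r2))
    (he : f^[n] e = e) (hit : ∀ i ≤ n, f^[i] e ∈ Set.Icc (aW n l1 r1 i) (aW n l2 r2 i)) :
    Function.minimalPeriod f e = n := by
  have hper : Function.IsPeriodicPt f n e := he
  have hdvd := hper.minimalPeriod_dvd
  have hpos : 0 < Function.minimalPeriod f e := hper.minimalPeriod_pos hn
  have hle : Function.minimalPeriod f e ≤ n := Nat.le_of_dvd hn hdvd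
  by_contra hne
  have hlt : Function.minimalPeriod f e < n := lt_of_le_of_ne hle hne
  set d := Function.minimalPeriod f e with hd
  have h0 := hit 0 (by omega)
  have h1 := hit d hle
  have h2 : f^[d] e = e := Function.isPeriodicPt_minimalPeriod f e
  rw [h2] at h1
  have h3 : ¬ n ∣ d := fun h => absurd (Nat.le_of_dvd hpos h) (by omega)
  simp only [aW, h3, false_and, if_false] at h1
  simp only [aW, dvd_zero, true_and, show n ≠ 1 by omega, ne_eq, not_false_eq_true, if_true,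
    Function.iterate_zero, id] at h0
  have h4 : e = c := hLR e h0.1 h0.2 h1.1 h1.2
  have h5 : d = 3 := by rw [hd, h4, hc3]
  have h6 := hit 2 (by omega)
  have h7 : ¬ n ∣ 2 := fun h => absurd (Nat.le_of_dvd (by norm_num) h) (by omega)
  simp only [aW, h7, false_and, if_false] at h6
  rw [h4] at h6
  exact hcc h6

theorem minPeriod_X {n : ℕ} (hn : 1 ≤ n) {l1 l2 r1 r2 c a b : ℝ}
    (hLR : ∀ t, l1 ≤ t → t ≤ l2 → r1 ≤ t → t ≤ r2 → t = c) (hab : a ≠ b)
    (ha : f^[n] a = b) (hb : f^[n] b = a)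
    (hita : ∀ i ≤ n, f^[i] a ∈ Set.Icc (aW n l1 r1 i) (aW n l2 r2 i))
    (hitb : ∀ i ≤ n, f^[i] b ∈ Set.Icc (aW n l1 r1 i) (aW n l2 r2 i)) :
    Function.minimalPeriod f a = 2 * n := by
  have hper : Function.IsPeriodicPt f (2 * n) a := by
    show f^[2 * n] a = a
    rw [two_mul, Function.iterate_add_apply, ha, hb]
  have hdvd := hper.minimalPeriod_dvd
  have hpos : 0 < Function.minimalPeriod f a := hper.minimalPeriod_pos (by omega)
  set d := Function.minimalPeriod f a with hd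
  have hnd : ¬ d ∣ n := by
    intro h
    have : Function.IsPeriodicPt f n a := (Function.isPeriodicPt_minimalPeriod f a).trans_dvd h
    exact hab (this.symm.trans ha)
  obtain ⟨m, hm⟩ := hdvd
  have hmodd : ¬ 2 ∣ m := by
    rintro ⟨k, rfl⟩
    exact hnd ⟨k, by linarith⟩
  rcases Nat.lt_or_ge m 3 with h1 | h1
  · have h2 : m = 1 := by
      have : m ≠ 0 := by
        rintro rfl
        simp at hmodd
      have : m ≠ 2 := by
        rintro rfl
        simp at hmodd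
      omega
    rw [h2] at hm
    omega
  · exfalso
    have hdn : d < n := by nlinarith
    have h2 : f^[d] a = a := Function.isPeriodicPt_minimalPeriod f a
    have h3 : f^[d] b = b := by
      rw [← ha, ← Function.iterate_add_apply, add_comm, Function.iterate_add_apply, h2]
    have h4 : ¬ n ∣ d := fun h => absurd (Nat.le_of_dvd hpos h) (by omega)
    have a0 := hita 0 (by omega)
    have a1 := hita d hdn.le
    have b0 := hitb 0 (by omega)
    have b1 := hitb d hdn.le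
    rw [h2] at a1
    rw [h3] at b1
    simp only [aW, h4, false_and, if_false] at a1 b1
    simp only [aW, dvd_zero, true_and, show n ≠ 1 by omega, ne_eq, not_false_eq_true, if_true,
      Function.iterate_zero, id] at a0 b0
    exact hab ((hLR a a0.1 a0.2 a1.1 a1.2).trans (hLR b b0.1 b0.2 b1.1 b1.2).symm)

theorem core (hf : Continuous f) (hI : ∀ x, f x ∈ Set.Icc (0 : ℝ) 1) {x : ℝ} {n : ℕ}
    (hn : 1 ≤ n) {S : Set ℝ} (hS : S = closure (sAlpha f x)) {c0 c2 l1 l2 r1 r2 c : ℝ}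
    (hc0 : c0 ∈ S) (hc2 : c2 ∈ S) (h02 : c0 < c2)
    (hl1 : l1 ∈ S) (hl1' : l1 ∈ Set.Icc c0 c2) (hl2 : l2 ∈ S) (hl2' : l2 ∈ Set.Icc c0 c2)
    (hr1 : r1 ∈ S) (hr1' : r1 ∈ Set.Icc c0 c2) (hr2 : r2 ∈ S) (hr2' : r2 ∈ Set.Icc c0 c2)
    (hl : l1 < l2) (hr : r1 < r2)
    (hLR : ∀ t, l1 ≤ t → t ≤ l2 → r1 ≤ t → t ≤ r2 → t = c)
    (hc3 : Function.minimalPeriod f c = 3) (hcc : ¬ (r1 ≤ f (f c) ∧ f (f c) ≤ r2))
    (hcL : Set.Icc r1 r2 ⊆ Set.uIcc (f l1) (f l2))
    (hcR1 : Set.Icc l1 l2 ⊆ Set.uIcc (f r1) (f r2))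
    (hcR2 : Set.Icc r1 r2 ⊆ Set.uIcc (f r1) (f r2)) :
    HasOrbit f (sAlpha f x) n ∨ HasOrbit f (sAlpha f x) (2 * n) := by
  have hScl : IsClosed S := by rw [hS]; exact isClosed_closure
  have hSf : ∀ s ∈ S, f s ∈ S := by
    intro s hs
    rw [hS] at hs ⊢
    exact closure_map hf hs
  have hSI : S ⊆ Set.Icc 0 1 := by
    rw [hS]
    exact closure_minimal sAlpha_subset isClosed_Icc
  have hST : S ⊆ closure (tree f x) := by
    rw [hS]
    exact closure_sAlpha_subset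
  -- conclusions
  have hYc : ∀ e ∈ S, f^[n] e = e →
      (∀ i ≤ n, f^[i] e ∈ Set.Icc (aW n l1 r1 i) (aW n l2 r2 i)) →
      HasOrbit f (sAlpha f x) n ∨ HasOrbit f (sAlpha f x) (2 * n) := by
    intro e he h1 h2
    left
    rw [hS] at he
    exact hasOrbit_of_closure hf hI he hn (minPeriod_Y hn hLR hc3 hcc h1 h2)
  have hXc : ∀ a ∈ S, ∀ b, a ≠ b → f^[n] a = b → f^[n] b = a →
      (∀ i ≤ n, f^[i] a ∈ Set.Icc (aW n l1 r1 i) (aW n l2 r2 i)) →
      (∀ i ≤ n, f^[i] b ∈ Set.Icc (aW n l1 r1 i) (aW n l2 r2 i)) →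
      HasOrbit f (sAlpha f x) n ∨ HasOrbit f (sAlpha f x) (2 * n) := by
    intro a ha b hab h1 h2 h3 h4
    right
    rw [hS] at ha
    exact hasOrbit_of_closure hf hI ha (by omega) (minPeriod_X hn hLR hab h1 h2 h3 h4)
  -- the clamped map
  set G := GGm S c0 c2 f with hG
  have hGc : Continuous G := GGm_continuous hScl hc0 hc2 h02.le hf
  have hGS : ∀ y ∈ S, y ∈ Set.Icc c0 c2 → G y = f y := by
    intro y hy hy'
    rw [hG, GGm_eq hy', gg_of_mem hScl hc0 hc2 hy' hy]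
  have hWS1 : ∀ i, aW n l1 r1 i ∈ S := by
    intro i
    unfold aW
    split_ifs <;> assumption
  have hWS2 : ∀ i, aW n l2 r2 i ∈ S := by
    intro i
    unfold aW
    split_ifs <;> assumption
  have hWI1 : ∀ i, aW n l1 r1 i ∈ Set.Icc c0 c2 := by
    intro i
    unfold aW
    split_ifs <;> assumption
  have hWI2 : ∀ i, aW n l2 r2 i ∈ Set.Icc c0 c2 := by
    intro i
    unfold aW
    split_ifs <;> assumption
  have hWle : ∀ i, aW n l1 r1 i ≤ aW n l2 r2 i := by
    intro i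
    unfold aW
    split_ifs
    · exact hl.le
    · exact hr.le
  have hWn : ∀ (u v : ℝ) (i : ℕ), aW n u v (i + n) = aW n u v i := by
    intro u v i
    unfold aW
    simp
  have hWcov : ∀ i, Set.Icc (aW n l1 r1 (i + 1)) (aW n l2 r2 (i + 1)) ⊆
      Set.uIcc (G (aW n l1 r1 i)) (G (aW n l2 r2 i)) := by
    intro i
    rw [hGS _ (hWS1 i) (hWI1 i), hGS _ (hWS2 i) (hWI2 i)]
    unfold aW
    by_cases h1 : n ∣ i ∧ n ≠ 1
    · have h2 : ¬ (n ∣ i + 1 ∧ n ≠ 1) := by
        rintro ⟨h3, h4⟩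
        exact h4 (Nat.dvd_one.1 ((Nat.dvd_add_right h1.1).1 h3))
      rw [if_pos h1, if_pos h1, if_neg h2, if_neg h2]
      exact hcL
    · rw [if_neg h1, if_neg h1]
      split_ifs
      · exact hcR1
      · exact hcR2
  obtain ⟨p, hp, hpW⟩ := chain_periodic hGc _ _ hWle hWcov n
    (by simpa using hWn l1 r1 0) (by simpa using hWn l2 r2 0)
  have hpn : ∀ i, G^[i + n] p = G^[i] p := by
    intro i
    rw [Function.iterate_add_apply, hp]
  have hpnm : ∀ m i, G^[i + n * m] p = G^[i] p := by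
    intro m i
    induction m with
    | zero => simp
    | succ m ih => rw [Nat.mul_succ, ← add_assoc, hpn, ih]
  have hWnm : ∀ (u v : ℝ) (m i : ℕ), aW n u v (i + n * m) = aW n u v i := by
    intro u v m i
    induction m with
    | zero => simp
    | succ m ih => rw [Nat.mul_succ, ← add_assoc, hWn, ih]
  have hpW' : ∀ i, G^[i] p ∈ Set.Icc (aW n l1 r1 i) (aW n l2 r2 i) := by
    intro i
    have h1 := hpW (i % n) (Nat.mod_lt _ hn).le
    rw [← hpnm (i / n), ← hWnm l1 r1 (i / n), ← hWnm l2 r2 (i / n), Nat.mod_add_div] at h1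
    exact h1
  have hpc : ∀ i, G^[i] p ∈ Set.Icc c0 c2 := fun i =>
    ⟨(hWI1 i).1.trans (hpW' i).1, (hpW' i).2.trans (hWI2 i).2⟩
  by_cases hcase : ∃ i, G^[i] p ∈ S
  · obtain ⟨i, hi⟩ := hcase
    have h1 : ∀ j, G^[i + j] p ∈ S := by
      intro j
      induction j with
      | zero => exact hi
      | succ j ih =>
        rw [← add_assoc, Function.iterate_succ_apply', hGS _ ih (hpc _)]
        exact hSf _ ih
    have h2 : ∀ j, G^[j] p ∈ S := by
      intro j
      rw [← hpnm i j]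
      have h3 : i ≤ j + n * i := by nlinarith
      obtain ⟨k, hk⟩ := Nat.exists_eq_add_of_le h3
      rw [hk]
      exact h1 k
    have h3 : ∀ j, f^[j] p = G^[j] p := by
      intro j
      induction j with
      | zero => rfl
      | succ j ih =>
        rw [Function.iterate_succ_apply', Function.iterate_succ_apply', ih, hGS _ (h2 j) (hpc j)]
    refine hYc p (h2 0) (by rw [h3, hp]) fun i _ => ?_
    rw [h3]
    exact hpW' i
  push Not at hcase
  -- gaps
  set a : ℕ → ℝ := fun i => gl S c0 (G^[i] p) with ha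
  set b : ℕ → ℝ := fun i => gr S c2 (G^[i] p) with hb
  have ha' : ∀ i, a i ∈ S ∧ c0 ≤ a i ∧ a i ≤ G^[i] p ∧ ∀ s ∈ S, s ≤ G^[i] p → s ≤ a i :=
    fun i => gl_spec hScl hc0 (hpc i).1
  have hb' : ∀ i, b i ∈ S ∧ b i ≤ c2 ∧ G^[i] p ≤ b i ∧ ∀ s ∈ S, G^[i] p ≤ s → b i ≤ s :=
    fun i => gr_spec hScl hc2 (hpc i).2
  have halt : ∀ i, a i < G^[i] p := fun i =>
    lt_of_le_of_ne (ha' i).2.2.1 fun h => hcase i (h ▸ (ha' i).1)
  have hblt : ∀ i, G^[i] p < b i := fun i =>
    lt_of_le_of_ne (hb' i).2.2.1 fun h => hcase i (h ▸ (hb' i).1)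
  have hab : ∀ i, a i < b i := fun i => (halt i).trans (hblt i)
  have hgap : ∀ i, ∀ s ∈ S, a i < s → s < b i → False := by
    intro i s hs h1 h2
    rcases le_total s (G^[i] p) with h | h
    · exact absurd ((ha' i).2.2.2 s hs h) (not_le.2 h1)
    · exact absurd ((hb' i).2.2.2 s hs h) (not_le.2 h2)
  have haW : ∀ i, aW n l1 r1 i ≤ a i := fun i => (ha' i).2.2.2 _ (hWS1 i) (hpW' i).1
  have hbW : ∀ i, b i ≤ aW n l2 r2 i := fun i => (hb' i).2.2.2 _ (hWS2 i) (hpW' i).2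
  have hGp : ∀ i, G^[i + 1] p ∈ Set.uIcc (f (a i)) (f (b i)) := by
    intro i
    rw [Function.iterate_succ_apply', hG, GGm_eq (hpc i)]
    exact gg_mem _
  have hmin : ∀ i, min (f (a i)) (f (b i)) ≤ a (i + 1) := by
    intro i
    refine (ha' (i + 1)).2.2.2 _ ?_ (hGp i).1
    rcases min_choice (f (a i)) (f (b i)) with h | h <;> rw [h]
    · exact hSf _ (ha' i).1
    · exact hSf _ (hb' i).1
  have hmax : ∀ i, b (i + 1) ≤ max (f (a i)) (f (b i)) := by
    intro i
    refine (hb' (i + 1)).2.2.2 _ ?_ (hGp i).2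
    rcases max_choice (f (a i)) (f (b i)) with h | h <;> rw [h]
    · exact hSf _ (ha' i).1
    · exact hSf _ (hb' i).1
  have hcov : ∀ i, Set.Icc (a (i + 1)) (b (i + 1)) ⊆ Set.uIcc (f (a i)) (f (b i)) :=
    fun i y hy => ⟨(hmin i).trans hy.1, hy.2.trans (hmax i)⟩
  have han : a n = a 0 := by
    show gl S c0 (G^[n] p) = gl S c0 (G^[0] p)
    rw [hp]
    rfl
  have hbn : b n = b 0 := by
    show gr S c2 (G^[n] p) = gr S c2 (G^[0] p)
    rw [hp]
    rfl
  have hVW : ∀ i y, y ∈ Set.Icc (a i) (b i) → y ∈ Set.Icc (aW n l1 r1 i) (aW n l2 r2 i) :=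
    fun i y hy => ⟨(haW i).trans hy.1, hy.2.trans (hbW i)⟩
  by_cases h2a : ∀ i < n, min (f (a i)) (f (b i)) = a (i + 1) ∧ max (f (a i)) (f (b i)) = b (i + 1)
  · have h1 : ∀ i ≤ n, (f^[i] (a 0) = a i ∧ f^[i] (b 0) = b i) ∨
        (f^[i] (a 0) = b i ∧ f^[i] (b 0) = a i) := by
      intro i
      induction i with
      | zero => intro _; left; exact ⟨rfl, rfl⟩
      | succ i ih =>
        intro hi
        obtain ⟨h3, h4⟩ := h2a i (by omega)
        rw [Function.iterate_succ_apply', Function.iterate_succ_apply']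
        rcases le_total (f (a i)) (f (b i)) with h5 | h5
        · rw [min_eq_left h5] at h3
          rw [max_eq_right h5] at h4
          rcases ih (by omega) with ⟨h6, h7⟩ | ⟨h6, h7⟩ <;> rw [h6, h7, h3, h4] <;> simp
        · rw [min_eq_right h5] at h3
          rw [max_eq_left h5] at h4
          rcases ih (by omega) with ⟨h6, h7⟩ | ⟨h6, h7⟩ <;> rw [h6, h7, h3, h4] <;> simp
    have h3 : ∀ i ≤ n, f^[i] (a 0) ∈ Set.Icc (aW n l1 r1 i) (aW n l2 r2 i) := by
      intro i hi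
      refine hVW i _ ?_
      rcases h1 i hi with ⟨h4, _⟩ | ⟨h4, _⟩ <;> rw [h4]
      · exact ⟨le_rfl, (hab i).le⟩
      · exact ⟨(hab i).le, le_rfl⟩
    have h4 : ∀ i ≤ n, f^[i] (b 0) ∈ Set.Icc (aW n l1 r1 i) (aW n l2 r2 i) := by
      intro i hi
      refine hVW i _ ?_
      rcases h1 i hi with ⟨_, h4⟩ | ⟨_, h4⟩ <;> rw [h4]
      · exact ⟨(hab i).le, le_rfl⟩
      · exact ⟨le_rfl, (hab i).le⟩
    rcases h1 n le_rfl with ⟨h5, _⟩ | ⟨h5, h6⟩
    · exact hYc _ (ha' 0).1 (h5.trans han) h3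
    · exact hXc _ (ha' 0).1 _ (hab 0).ne (h5.trans hbn) (h6.trans han) h3 h4
  -- a tree point in the gap
  push Not at h2a
  obtain ⟨i0, hi0, h2b⟩ := h2a
  have htree : ∃ y0 ∈ tree f x, y0 ∈ Set.Icc (a 0) (b 0) := by
    have h1 : ∃ s ∈ S, s ∈ Set.Ioo (min (f (a i0)) (f (b i0))) (max (f (a i0)) (f (b i0))) := by
      rcases (hmin i0).lt_or_eq with h | h
      · exact ⟨a (i0 + 1), (ha' _).1, h, (hab _).trans_le (hmax i0)⟩
      · refine ⟨b (i0 + 1), (hb' _).1, (hmin i0).trans_lt (hab _), lt_of_le_of_ne (hmax i0) ?_⟩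
        exact fun h' => h2b h h'.symm
    obtain ⟨s, hs, hs1⟩ := h1
    obtain ⟨t, ht1, ht2⟩ := mem_closure_iff.1 (hST hs) _ isOpen_Ioo hs1
    obtain ⟨t', ht', ht''⟩ := intermediate_value_uIcc (a := a i0) (b := b i0) hf.continuousOn
      (Set.Ioo_subset_Icc_self ht1)
    rw [Set.uIcc_of_le (hab i0).le] at ht'
    obtain ⟨u, hu, v, hv, hu1, hv1, huv⟩ := chain hf a b (fun i => (hab i).le) hcov i0 t' t' le_rfl
      ht' ht'
    refine ⟨u, ⟨⟨(hSI (ha' 0).1).1.trans hu.1, hu.2.trans (hSI (hb' 0).1).2⟩, ?_⟩, hu⟩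
    obtain ⟨_, k, hk, hkx⟩ := ht2
    refine ⟨k + (i0 + 1), by omega, ?_⟩
    rw [Function.iterate_add_apply, Function.iterate_succ_apply', hu1, ht'', hkx]
  obtain ⟨y0, hy0, hy0V⟩ := htree
  obtain ⟨u, hu, v, hv, hu1, hv1, huv⟩ := chain hf a b (fun i => (hab i).le) hcov n (a 0) (b 0)
    (hab 0).le (by rw [han, hbn]; exact ⟨le_rfl, (hab 0).le⟩)
    (by rw [han, hbn]; exact ⟨(hab 0).le, le_rfl⟩)
  have hitu : ∀ i ≤ n, f^[i] u ∈ Set.Icc (aW n l1 r1 i) (aW n l2 r2 i) :=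
    fun i hi => hVW i _ ((huv u Set.left_mem_uIcc).2 i hi)
  have hitv : ∀ i ≤ n, f^[i] v ∈ Set.Icc (aW n l1 r1 i) (aW n l2 r2 i) :=
    fun i hi => hVW i _ ((huv v Set.right_mem_uIcc).2 i hi)
  by_cases hua : u = a 0
  · exact hYc u (hua ▸ (ha' 0).1) (by rw [hu1, hua]) hitu
  by_cases hvb : v = b 0
  · exact hYc v (hvb ▸ (hb' 0).1) (by rw [hv1, hvb]) hitv
  by_cases hsw : v = a 0 ∧ u = b 0
  · refine hXc v (hsw.1 ▸ (ha' 0).1) u ?_ (by rw [hv1, hsw.2]) (by rw [hu1, hsw.1]) hitv hitu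
    rw [hsw.1, hsw.2]
    exact (hab 0).ne
  exfalso
  set K : Set ℝ := Set.uIcc u v ∩ (f^[n]) ⁻¹' Set.uIcc u v with hK
  have hKc : IsCompact K := isCompact_uIcc.inter_right
    (isClosed_Icc.preimage (hf.iterate n))
  have huvV : Set.uIcc u v ⊆ Set.Icc (a 0) (b 0) := by
    have h1 := Set.uIcc_subset_uIcc (Set.Icc_subset_uIcc hu) (Set.Icc_subset_uIcc hv)
    rwa [Set.uIcc_of_le (hab 0).le] at h1
  have hKV : K ⊆ Set.Icc (a 0) (b 0) := fun z hz => huvV hz.1
  have honto : ∀ y ∈ Set.Icc (a 0) (b 0), ∃ z ∈ Set.uIcc u v, f^[n] z = y := by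
    intro y hy
    obtain ⟨z, hz, h⟩ := intermediate_value_uIcc (a := u) (b := v) (hf.iterate n).continuousOn
      (show y ∈ Set.uIcc (f^[n] u) (f^[n] v) by
        rw [hu1, hv1]
        exact Set.Icc_subset_uIcc hy)
    exact ⟨z, hz, h⟩
  obtain ⟨q, hqK, hqs⟩ := exists_mem_of_rec (N := 2 * n) hI (by omega) hKc hy0 hy0V hKV
    (fun z hz => ⟨(hSI (ha' 0).1).1.trans (hKV hz).1, (hKV hz).2.trans (hSI (hb' 0).1).2⟩)
    (fun y hy => by
      obtain ⟨z, hz, hzy⟩ := honto y hy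
      obtain ⟨w, hw, hwz⟩ := honto z (huvV hz)
      refine ⟨w, ⟨hw, ?_⟩, ?_⟩
      · show f^[n] w ∈ Set.uIcc u v
        rw [hwz]
        exact hz
      · rw [two_mul, Function.iterate_add_apply, hwz, hzy])
  have hqS : q ∈ S := by
    rw [hS]
    exact subset_closure hqs
  have hq1 := hKV hqK
  have hend : ∀ e, (e = a 0 ∨ e = b 0) → e ∈ Set.uIcc u v → e = u ∨ e = v := by
    intro e he h1
    rw [Set.mem_uIcc] at h1
    rcases he with he | he
    · rcases h1 with h1 | h1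
      · left
        linarith [hu.1]
      · right
        linarith [hv.1]
    · rcases h1 with h1 | h1
      · right
        linarith [hv.2]
      · left
        linarith [hu.2]
  rcases hq1.1.lt_or_eq with h1 | h1
  · rcases hq1.2.lt_or_eq with h2 | h2
    · exact hgap 0 q hqS h1 h2
    · -- q = b 0
      have h3 : q = u := by
        rcases hend q (Or.inr h2) hqK.1 with h | h
        · exact h
        · exact absurd (h.symm.trans h2) hvb
      have h4 : f^[n] q ∈ Set.uIcc u v := hqK.2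
      rw [h3, hu1] at h4
      rcases hend _ (Or.inl rfl) h4 with h5 | h5
      · exact hua h5.symm
      · exact hsw ⟨h5.symm, h3.symm.trans h2⟩
  · have h3 : q = v := by
      rcases hend q (Or.inl h1.symm) hqK.1 with h | h
      · exact absurd (h.symm.trans h1.symm) hua
      · exact h
    have h4 : f^[n] q ∈ Set.uIcc u v := hqK.2
    rw [h3, hv1] at h4
    rcases hend _ (Or.inr rfl) h4 with h5 | h5
    · exact hsw ⟨h3.symm.trans h1.symm, h5.symm⟩
    · exact hvb h5.symm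

end Pool.Agent.X177.SA
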